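import Pool.Agent.Helper36.VC.St

/-!
Project VC, module ENU.
-/

set_option autoImplicit false

open Cardinal Ordinal Set Filter

open Pool.Agent.Helper65.GS Pool.Agent.Helper36.VC

universe u

namespace Pool.Agent.Helper39.VC

theorem pENU : StENU.{u} := by
  classical
  intro κ D S hκ hS hD
  have hg : ∀ e : Ordinal.{u}, ∃ g : ℕ → Ordinal.{u}, e < κ.ord → ∀ b ∈ S e, ∃ n, g n = b := by
    intro e
    by_cases he : e < κ.ord
    · rcases (S e).eq_empty_or_nonempty with h | h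
      · exact ⟨fun _ => 0, fun _ b hb => by rw [h] at hb; exact absurd hb (notMem_empty b)⟩
      · obtain ⟨g, hg⟩ := (hS e he).exists_eq_range h
        exact ⟨g, fun _ b hb => by rw [hg] at hb; exact hb⟩
    · exact ⟨fun _ => 0, fun h => absurd h he⟩
  choose g hg using hg
  have hcard : #(κ.ord.ToType × ℕ) = #κ.ord.ToType := by
    rw [mk_prod, mk_toType, card_ord]
    simpa using Cardinal.mul_aleph0_eq hκ
  obtain ⟨h⟩ := Cardinal.eq.1 hcard
  set F : Ordinal.{u} → Ordinal.{u} := fun e => if he : e ∈ Iio κ.ord then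
    g (h.symm (ToType.mk ⟨e, he⟩)).1.toOrd (h.symm (ToType.mk ⟨e, he⟩)).2 else 0 with hF
  refine ⟨F, ?_⟩
  intro b hb
  obtain ⟨e, he, hbe⟩ := hD b hb
  obtain ⟨n, hn⟩ := hg e he b hbe
  have he' : e ∈ Iio κ.ord := mem_Iio.2 he
  have key : ∀ x : Iio κ.ord, F x = g (h.symm (ToType.mk x)).1.toOrd (h.symm (ToType.mk x)).2 := by
    intro x
    rw [hF]
    exact dif_pos x.2
  refine ⟨(h (ToType.mk ⟨e, he'⟩, n)).toOrd, mem_Iio.1 (h (ToType.mk ⟨e, he'⟩, n)).toOrd.2, ?_⟩
  rw [key]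
  simpa using hn

end Pool.Agent.Helper39.VC
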